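import Pool.Agent.helper64.OT.SpecG

/-!
# Project OT, second theorem (MP_f6e9a2_nt), row COX: core (a) (helper30; adapted from helper2/OT/COA.lean)
-/

set_option autoImplicit false

namespace Pool.Agent.OG

open Finset Pool.Agent.OT Pool.Agent.SPI Pool.Agent.helper85.PG
open scoped Pointwise

lemma COX_num (P e N L E : ℝ) (hP : 1 ≤ P) (he : 0 < e) (hN0 : 0 ≤ N)
    (hN : N ≤ P ^ (3 / 4 - e)) (hL : P ^ (1 / 2 - e / 20 / 8) ≤ L) (hE0 : 0 ≤ E)
    (hE : E ≤ 4 * P ^ (1 / 4 - e / 4) * L ^ 2) :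
    100 * (N * L + L * (E * (N * P ^ 2 + P ^ (11 / 4 : ℝ))) ^ (1 / 4 : ℝ)) ≤
      10 ^ 6 * P ^ (1 / 2 - e / 20) * L ^ 2 := by
  have hP0 : 0 < P := by linarith
  have hl0 : 0 < P ^ (1 / 2 - e / 20 / 8) := Real.rpow_pos_of_pos hP0 _
  have hL0 : 0 < L := lt_of_lt_of_le hl0 hL
  have ha0 : 0 < P ^ (1 / 2 - e / 20) := Real.rpow_pos_of_pos hP0 _
  have h1 : N ≤ P ^ (1 / 2 - e / 20) * L := by
    calc N ≤ P ^ (3 / 4 - e) := hN
      _ ≤ P ^ ((1 / 2 - e / 20) + (1 / 2 - e / 20 / 8)) :=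
          Real.rpow_le_rpow_of_exponent_le hP (by linarith)
      _ = P ^ (1 / 2 - e / 20) * P ^ (1 / 2 - e / 20 / 8) := Real.rpow_add hP0 _ _
      _ ≤ P ^ (1 / 2 - e / 20) * L := mul_le_mul_of_nonneg_left hL ha0.le
  have h2 : N * P ^ 2 + P ^ (11 / 4 : ℝ) ≤ 2 * P ^ (11 / 4 : ℝ) := by
    have h3 : N * P ^ 2 ≤ P ^ (11 / 4 : ℝ) := by
      calc N * P ^ 2 ≤ P ^ (3 / 4 - e) * P ^ 2 := mul_le_mul_of_nonneg_right hN (by positivity)
        _ = P ^ (3 / 4 - e + 2) := by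
            rw [Real.rpow_add hP0, Real.rpow_two]
        _ ≤ P ^ (11 / 4 : ℝ) := Real.rpow_le_rpow_of_exponent_le hP (by linarith)
    linarith
  have hLsq : P ^ (1 - e / 80) ≤ L ^ 2 := by
    calc P ^ (1 - e / 80) = P ^ ((1 / 2 - e / 20 / 8) + (1 / 2 - e / 20 / 8)) := by
          congr 1; ring
      _ = P ^ (1 / 2 - e / 20 / 8) * P ^ (1 / 2 - e / 20 / 8) := Real.rpow_add hP0 _ _
      _ ≤ L * L := mul_le_mul hL hL hl0.le hL0.le
      _ = L ^ 2 := by ring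
  have h4 : (P ^ (1 / 2 - e / 20)) ^ 4 = P ^ (2 - e / 5) := by
    rw [← Real.rpow_natCast, ← Real.rpow_mul hP0.le]
    congr 1
    push_cast
    ring
  have h5 : E * (N * P ^ 2 + P ^ (11 / 4 : ℝ)) ≤ (2 * P ^ (1 / 2 - e / 20) * L) ^ 4 := by
    calc E * (N * P ^ 2 + P ^ (11 / 4 : ℝ))
        ≤ (4 * P ^ (1 / 4 - e / 4) * L ^ 2) * (2 * P ^ (11 / 4 : ℝ)) :=
          mul_le_mul hE h2 (by positivity) (by positivity)
      _ = 8 * (P ^ (1 / 4 - e / 4) * P ^ (11 / 4 : ℝ)) * L ^ 2 := by ring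
      _ = 8 * P ^ (3 - e / 4) * L ^ 2 := by
          rw [← Real.rpow_add hP0]
          congr 3
          ring
      _ ≤ 16 * P ^ ((2 - e / 5) + (1 - e / 80)) * L ^ 2 := by
          have h6 : P ^ (3 - e / 4) ≤ P ^ ((2 - e / 5) + (1 - e / 80)) :=
            Real.rpow_le_rpow_of_exponent_le hP (by linarith)
          have h7 : 0 < P ^ (3 - e / 4) := Real.rpow_pos_of_pos hP0 _
          exact mul_le_mul_of_nonneg_right (by linarith) (by positivity)
      _ = 16 * P ^ (2 - e / 5) * P ^ (1 - e / 80) * L ^ 2 := by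
          rw [Real.rpow_add hP0]; ring
      _ ≤ 16 * P ^ (2 - e / 5) * L ^ 2 * L ^ 2 := by
          have h8 : 0 < P ^ (2 - e / 5) := Real.rpow_pos_of_pos hP0 _
          exact mul_le_mul_of_nonneg_right (mul_le_mul_of_nonneg_left hLsq (by positivity))
            (by positivity)
      _ = (2 * P ^ (1 / 2 - e / 20) * L) ^ 4 := by
          rw [mul_pow, mul_pow, h4]; ring
  have h9 : (E * (N * P ^ 2 + P ^ (11 / 4 : ℝ))) ^ (1 / 4 : ℝ) ≤ 2 * P ^ (1 / 2 - e / 20) * L := by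
    have h10 : 0 ≤ 2 * P ^ (1 / 2 - e / 20) * L := by positivity
    calc (E * (N * P ^ 2 + P ^ (11 / 4 : ℝ))) ^ (1 / 4 : ℝ)
        ≤ ((2 * P ^ (1 / 2 - e / 20) * L) ^ 4) ^ (1 / 4 : ℝ) :=
          Real.rpow_le_rpow (by positivity) h5 (by norm_num)
      _ = 2 * P ^ (1 / 2 - e / 20) * L := by
          rw [← Real.rpow_natCast, ← Real.rpow_mul h10]
          norm_num
  have h11 : N * L ≤ P ^ (1 / 2 - e / 20) * L ^ 2 := by
    calc N * L ≤ (P ^ (1 / 2 - e / 20) * L) * L := mul_le_mul_of_nonneg_right h1 hL0.le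
      _ = _ := by ring
  have h12 : L * (E * (N * P ^ 2 + P ^ (11 / 4 : ℝ))) ^ (1 / 4 : ℝ) ≤
      2 * (P ^ (1 / 2 - e / 20) * L ^ 2) := by
    calc L * (E * (N * P ^ 2 + P ^ (11 / 4 : ℝ))) ^ (1 / 4 : ℝ)
        ≤ L * (2 * P ^ (1 / 2 - e / 20) * L) := mul_le_mul_of_nonneg_left h9 hL0.le
      _ = _ := by ring
  have h13 : 0 < P ^ (1 / 2 - e / 20) * L ^ 2 := by positivity
  nlinarith [h11, h12, h13]

theorem COX (hSIZ : SIZ_stmt) (hMEH : MEH_stmt) (hP3S : P3S_stmt) (hDSY : DSY_stmt) (hHVY : HVY_stmt)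
    (hCOH : COH_stmt) : COX_stmt := by
  intro d ε hε
  set e : ℝ := min ε (1 / 2) with hedef
  have he : 0 < e := lt_min hε (by norm_num)
  have heε : e ≤ ε := min_le_left _ _
  have he2 : e ≤ 1 / 2 := min_le_right _ _
  obtain ⟨D, hD1, HD⟩ := hDSY d
  have hD0 : 0 < D := by linarith
  obtain ⟨cS, pS, hcS, HS⟩ := hSIZ e (e / 20 / 8) he (by positivity)
  obtain ⟨cM, pM, hcM, HM⟩ := hMEH e (e / 20) (10 ^ 6 * D) he (by positivity) (by positivity)
  obtain ⟨cB, pB, hcB, HB⟩ := hCOH d (e / 2) (by positivity)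
  set c' : ℝ := min (min cM cB) (2 * e / 5) with hc'def
  have hc' : 0 < c' := lt_min (lt_min hcM hcB) (by positivity)
  have hc'M : c' ≤ cM := (min_le_left _ _).trans (min_le_left _ _)
  have hc'B : c' ≤ cB := (min_le_left _ _).trans (min_le_right _ _)
  have hc'e : c' ≤ 2 * e / 5 := min_le_right _ _
  refine ⟨min cS (c' / 2), max (max pS pM) (max pB (max 65536 ⌈(2 : ℝ) ^ (2 / c')⌉₊)),
    lt_min hcS (by positivity), ?_⟩
  intro p _ hp χ P X B β hχ hβ hP hN hX hcase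
  have hpS : pS < p := lt_of_le_of_lt (le_trans (le_max_left _ _) (le_max_left _ _)) hp
  have hpM : pM < p := lt_of_le_of_lt (le_trans (le_max_right _ _) (le_max_left _ _)) hp
  have hpB : pB < p := lt_of_le_of_lt (le_trans (le_max_left _ _) (le_max_right _ _)) hp
  have hp1 : 65536 < p := lt_of_le_of_lt
    (le_trans (le_trans (le_max_left _ _) (le_max_right _ _)) (le_max_right _ _)) hp
  have hp2 : ⌈(2 : ℝ) ^ (2 / c')⌉₊ < p := lt_of_le_of_lt
    (le_trans (le_trans (le_max_right _ _) (le_max_right _ _)) (le_max_right _ _)) hp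
  have hP1 : (65536 : ℝ) < (p : ℝ) := by exact_mod_cast hp1
  have hPge : (1 : ℝ) ≤ (p : ℝ) := by linarith
  have hPpos : (0 : ℝ) < (p : ℝ) := by linarith
  have hP2 : (2 : ℝ) ^ (2 / c') < (p : ℝ) :=
    lt_of_le_of_lt (Nat.le_ceil _) (by exact_mod_cast hp2)
  have h2 : (2 : ℝ) ≤ (p : ℝ) ^ (c' / 2) := by
    calc (2 : ℝ) = ((2 : ℝ) ^ (2 / c')) ^ (c' / 2) := by
          rw [← Real.rpow_mul (by norm_num)]
          have : 2 / c' * (c' / 2) = 1 := by field_simp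
          rw [this, Real.rpow_one]
      _ ≤ (p : ℝ) ^ (c' / 2) := Real.rpow_le_rpow (by positivity) hP2.le (by positivity)
  have h2e : (2 : ℝ) ≤ (p : ℝ) ^ (e / 5) :=
    h2.trans (Real.rpow_le_rpow_of_exponent_le hPge (by linarith))
  have hNe : ((P 1).card : ℝ) ≤ (p : ℝ) ^ (3 / 4 - e) :=
    le_trans hN (Real.rpow_le_rpow_of_exponent_le hPge (by linarith))
  have hPP : P (1 / 2) ⊆ P 1 := IsSys.mono hP (by norm_num)
  have hHe : ((P (1 / 2)).card : ℝ) ≤ (p : ℝ) ^ (3 / 4 - e) := by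
    refine le_trans ?_ hNe
    exact_mod_cast Finset.card_le_card hPP
  have hcase' : (B.card : ℝ) ≤ (p : ℝ) ^ (1 - e) ∨ (p : ℝ) ^ e ≤ X.card := by
    rcases hcase with h | h
    · exact Or.inl (le_trans h (Real.rpow_le_rpow_of_exponent_le hPge (by linarith)))
    · exact Or.inr (le_trans (Real.rpow_le_rpow_of_exponent_le hPge heε) h)
  have hXN : (X.card : ℝ) ≤ (P (1 / 2)).card := by exact_mod_cast Finset.card_le_card hX
  have hX1 : (X.card : ℝ) ≤ (p : ℝ) ^ (1 - e) :=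
    le_trans hXN (le_trans hHe (Real.rpow_le_rpow_of_exponent_le hPge (by linarith)))
  have hR0 : ∀ D : Finset (ZMod p), 0 ≤ Real.sqrt (p * (X.card * D.card)) + (X.card : ℝ) * D.card :=
    fun D => by positivity
  rcases HS p hpS χ X B hχ hX1 hcase' with hfirst | ⟨-, -, -, hB2⟩
  · refine le_trans (hfirst β hβ) (mul_le_mul_of_nonneg_right ?_ (hR0 B))
    exact Real.rpow_le_rpow_of_exponent_le hPge (neg_le_neg (min_le_left _ _))
  · set m : ℕ := ⌊(p : ℝ) ^ (1 / 4 - e / 4)⌋₊ with hm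
    have hx1 : (1 : ℝ) ≤ (p : ℝ) ^ (1 / 4 - e / 4) := Real.one_le_rpow hPge (by linarith)
    have hm1 : 1 ≤ m := Nat.le_floor (by exact_mod_cast hx1)
    obtain ⟨L, J, hLsub, hJ, hJc, hES⟩ := hHVY p d P B m hP
    set H := B.filter fun b => b ∉ L with hH
    have hLf : B.filter (fun b => b ∈ L) = L := by
      ext b
      rw [Finset.mem_filter]
      exact ⟨fun h => h.2, fun h => ⟨hLsub h, h⟩⟩
    have hsplit : ∀ x, FB χ B β x = FB χ L β x + FB χ H β x := by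
      intro x
      unfold Pool.Agent.OT.FB
      rw [← Finset.sum_filter_add_sum_filter_not B (fun b => b ∈ L), hLf]
    have hLB : L.card ≤ B.card := Finset.card_le_card hLsub
    have hHB : H.card ≤ B.card := Finset.card_le_card (Finset.filter_subset _ _)
    have hLB' : (L.card : ℝ) ≤ B.card := by exact_mod_cast hLB
    have hHB' : (H.card : ℝ) ≤ B.card := by exact_mod_cast hHB
    have hmono : ∀ D : Finset (ZMod p), (D.card : ℝ) ≤ B.card →
        Real.sqrt (p * (X.card * D.card)) + (X.card : ℝ) * D.card ≤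
          Real.sqrt (p * (X.card * B.card)) + (X.card : ℝ) * B.card := by
      intro D hD
      have h3 : (X.card : ℝ) * D.card ≤ (X.card : ℝ) * B.card :=
        mul_le_mul_of_nonneg_left hD (Nat.cast_nonneg _)
      have h4 : Real.sqrt (p * (X.card * D.card)) ≤ Real.sqrt (p * (X.card * B.card)) :=
        Real.sqrt_le_sqrt (mul_le_mul_of_nonneg_left h3 hPpos.le)
      linarith
    -- the part near the heavy points
    have hHcells : ((P 1).card : ℝ) * J.card ≤ (p : ℝ) ^ (1 - e / 2) := by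
      have h4 : (m : ℝ) * J.card ≤ B.card := by exact_mod_cast hJc
      have h5 : (p : ℝ) ^ (1 / 4 - e / 4) ≤ 2 * (m : ℝ) := by
        have h6 : (p : ℝ) ^ (1 / 4 - e / 4) ≤ (m : ℝ) + 1 := (Nat.lt_floor_add_one _).le
        have h7 : (1 : ℝ) ≤ m := by exact_mod_cast hm1
        linarith
      have h6 : (J.card : ℝ) * (p : ℝ) ^ (1 / 4 - e / 4) ≤ 2 * (p : ℝ) ^ (1 / 2 + e / 20 / 8) := by
        calc (J.card : ℝ) * (p : ℝ) ^ (1 / 4 - e / 4) ≤ J.card * (2 * (m : ℝ)) :=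
              mul_le_mul_of_nonneg_left h5 (Nat.cast_nonneg _)
          _ = 2 * ((m : ℝ) * J.card) := by ring
          _ ≤ 2 * (p : ℝ) ^ (1 / 2 + e / 20 / 8) := by linarith
      have h7 : (J.card : ℝ) ≤ 2 * (p : ℝ) ^ (1 / 4 + e / 4 + e / 20 / 8) := by
        have h8 : (p : ℝ) ^ (1 / 2 + e / 20 / 8) =
            (p : ℝ) ^ (1 / 4 + e / 4 + e / 20 / 8) * (p : ℝ) ^ (1 / 4 - e / 4) := by
          rw [← Real.rpow_add hPpos]
          congr 1
          ring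
        rw [h8, ← mul_assoc] at h6
        exact le_of_mul_le_mul_right h6 (Real.rpow_pos_of_pos hPpos _)
      calc ((P 1).card : ℝ) * J.card
          ≤ (p : ℝ) ^ (3 / 4 - e) * (2 * (p : ℝ) ^ (1 / 4 + e / 4 + e / 20 / 8)) :=
            mul_le_mul hNe h7 (Nat.cast_nonneg _) (by positivity)
        _ ≤ (p : ℝ) ^ (3 / 4 - e) * ((p : ℝ) ^ (e / 5) * (p : ℝ) ^ (1 / 4 + e / 4 + e / 20 / 8)) := by
            refine mul_le_mul_of_nonneg_left (mul_le_mul_of_nonneg_right h2e ?_) ?_ <;> positivity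
        _ = (p : ℝ) ^ ((3 / 4 - e) + (e / 5 + (1 / 4 + e / 4 + e / 20 / 8))) := by
            rw [← Real.rpow_add hPpos, ← Real.rpow_add hPpos]
        _ ≤ (p : ℝ) ^ (1 - e / 2) := Real.rpow_le_rpow_of_exponent_le hPge (by linarith)
    have hSH := HB p hpB χ P X H J β hχ hβ hP hX hHcells (by
      intro b hb
      obtain ⟨hb1, hb2⟩ := Finset.mem_filter.1 hb
      exact hJ b hb1 hb2)
    -- the rest
    have hcaseL : (L.card : ℝ) ≤ (p : ℝ) ^ (1 - e) ∨ (p : ℝ) ^ e ≤ X.card := by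
      rcases hcase' with h | h
      · exact Or.inl (le_trans hLB' h)
      · exact Or.inr h
    have hp3 : p ≠ 2 := by omega
    obtain ⟨hD2, hD3, -, hD5, -, hD7, -⟩ := HD p hp3 P hP
    have hHne : (P (1 / 2)).Nonempty := ⟨0, IsSys.zero_mem hP (by norm_num)⟩
    have hSL := HM p hpM χ (P (1 / 2)) X L β hχ hβ hX hX1 hcaseL (by
      intro hL1 _
      refine le_trans (hP3S p χ (Sk P (1 / 16)) (P (1 / 2)) L β D hχ hp3 hD2 hHne hD1 hD3 hD5 ?_ hβ) ?_
      · intro x hx y hy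
        refine hD7 _ ?_
        have h3 := IsSys.add_mem hP hx hy
        have h4 : (1 / 2 + 1 / 2 : ℝ) = 1 := by norm_num
        rwa [h4] at h3
      · have hEN' : (ES (P (1 / 2)) L : ℝ) ≤ 4 * (p : ℝ) ^ (1 / 4 - e / 4) * (L.card : ℝ) ^ 2 := by
          have h3 : (ES (P (1 / 2)) L : ℝ) ≤ (m : ℝ) * (L.card : ℝ) ^ 2 := by exact_mod_cast hES
          have h4 : (m : ℝ) ≤ (p : ℝ) ^ (1 / 4 - e / 4) := Nat.floor_le (by positivity)
          refine le_trans h3 (mul_le_mul_of_nonneg_right ?_ (by positivity))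
          linarith
        have h5 := COX_num (p : ℝ) e (P (1 / 2)).card L.card (ES (P (1 / 2)) L) hPge he (Nat.cast_nonneg _) hHe hL1
          (Nat.cast_nonneg _) hEN'
        have h6 := mul_le_mul_of_nonneg_left h5 hD0.le
        calc _ = D * (100 * (((P (1 / 2)).card : ℝ) * L.card + L.card *
              ((ES (P (1 / 2)) L : ℝ) * (((P (1 / 2)).card : ℝ) * (p : ℝ) ^ 2 + (p : ℝ) ^ (11 / 4 : ℝ))) ^ (1 / 4 : ℝ))) := by ring
          _ ≤ _ := h6
          _ = _ := by ring)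
    -- the sum
    have hsum : ∑ x ∈ X, ‖FB χ B β x‖ ≤ ∑ x ∈ X, ‖FB χ L β x‖ + ∑ x ∈ X, ‖FB χ H β x‖ := by
      rw [← Finset.sum_add_distrib]
      refine Finset.sum_le_sum fun x _ => ?_
      rw [hsplit x]
      exact norm_add_le _ _
    have hbd : ∀ (c : ℝ) (D : Finset (ZMod p)), c' ≤ c → (D.card : ℝ) ≤ B.card →
        (p : ℝ) ^ (-c) * (Real.sqrt (p * (X.card * D.card)) + X.card * D.card) ≤
          (p : ℝ) ^ (-c') * (Real.sqrt (p * (X.card * B.card)) + X.card * B.card) := by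
      intro c D hc hD
      exact mul_le_mul (Real.rpow_le_rpow_of_exponent_le hPge (neg_le_neg hc)) (hmono D hD)
        (hR0 D) (by positivity)
    have h2c : 2 * (p : ℝ) ^ (-c') ≤ (p : ℝ) ^ (-min cS (c' / 2)) := by
      calc 2 * (p : ℝ) ^ (-c') ≤ (p : ℝ) ^ (c' / 2) * (p : ℝ) ^ (-c') :=
            mul_le_mul_of_nonneg_right h2 (by positivity)
        _ = (p : ℝ) ^ (c' / 2 + -c') := (Real.rpow_add hPpos _ _).symm
        _ ≤ (p : ℝ) ^ (-min cS (c' / 2)) := by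
            refine Real.rpow_le_rpow_of_exponent_le hPge ?_
            have h3 : min cS (c' / 2) ≤ c' / 2 := min_le_right _ _
            linarith
    calc ∑ x ∈ X, ‖FB χ B β x‖ ≤ ∑ x ∈ X, ‖FB χ L β x‖ + ∑ x ∈ X, ‖FB χ H β x‖ := hsum
      _ ≤ (p : ℝ) ^ (-c') * (Real.sqrt (p * (X.card * B.card)) + X.card * B.card) +
          (p : ℝ) ^ (-c') * (Real.sqrt (p * (X.card * B.card)) + X.card * B.card) :=
          add_le_add (le_trans hSL (hbd cM L hc'M hLB')) (le_trans hSH (hbd cB H hc'B hHB'))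
      _ = (2 * (p : ℝ) ^ (-c')) * (Real.sqrt (p * (X.card * B.card)) + X.card * B.card) := by ring
      _ ≤ _ := mul_le_mul_of_nonneg_right h2c (hR0 B)

end Pool.Agent.OG
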