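import Pool.Agent.helper64.OT.SpecD

set_option autoImplicit false

/-!
# OT, row GNB (helper30)
-/

namespace Pool.Agent.OT

open Finset

theorem GNB_row (T : ℕ) (f : ℤ → ℝ) (hf : ∀ r, 0 ≤ f r) (s : ℕ) (hs : s ∈ range T) :
    ∑ s' ∈ range T, f ((s' : ℤ) - (s : ℤ)) ≤ ∑ r ∈ Ioo (-(T : ℤ)) (T : ℤ), f r := by
  have hinj : Set.InjOn (fun s' : ℕ => (s' : ℤ) - (s : ℤ)) (range T : Finset ℕ) := by
    intro a _ b _ h
    have h1 : (a : ℤ) - (s : ℤ) = (b : ℤ) - (s : ℤ) := h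
    omega
  have h1 : ∑ s' ∈ range T, f ((s' : ℤ) - (s : ℤ)) = ∑ r ∈ (range T).image (fun s' : ℕ => (s' : ℤ) - (s : ℤ)), f r :=
    (sum_image hinj).symm
  rw [h1]
  refine sum_le_sum_of_subset_of_nonneg ?_ fun r _ _ => hf r
  intro r hr
  rw [mem_image] at hr
  obtain ⟨s', hs', rfl⟩ := hr
  rw [mem_range] at hs' hs
  rw [mem_Ioo]
  constructor <;> omega

theorem GNB (hGNA : GNA_stmt) (hLSV : LSV_stmt) : GNB_stmt := by
  intro p _ χ N T B w γ hχ hN hT hp1 hp2 hw hγ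
  have hTp : T < p := by
    have h1 : 8 * T * 1 ≤ 8 * T * N := Nat.mul_le_mul_left _ hN
    omega
  refine (hGNA p χ N T B w γ hχ hN hT hTp hw hγ).trans ?_
  have hJ : ∀ j ∈ cells N B, j * N < p := by
    intro j hj
    unfold cells at hj
    rw [mem_image] at hj
    obtain ⟨b, _, rfl⟩ := hj
    exact lt_of_le_of_lt (Nat.div_mul_le_self _ _) (ZMod.val_lt b)
  have hL := hLSV p N T (cells N B) hN hT hp1 hp2 hJ
  set f : ℤ → ℝ := fun r => ‖WJ N (cells N B) (r : ZMod p)‖ with hfdef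
  have hf : ∀ r, 0 ≤ f r := fun r => norm_nonneg _
  set R : ℝ := ((cells N B).card : ℝ) with hR
  have hR0 : 0 ≤ R := Nat.cast_nonneg _
  have hT0 : (0 : ℝ) < T := by exact_mod_cast hT
  -- the double sum
  have hS1 : ∑ s ∈ range T, ∑ s' ∈ range T, ‖WJ N (cells N B) ((s' : ZMod p) - (s : ZMod p))‖
      ≤ T * ∑ r ∈ Ioo (-(T : ℤ)) (T : ℤ), f r := by
    calc ∑ s ∈ range T, ∑ s' ∈ range T, ‖WJ N (cells N B) ((s' : ZMod p) - (s : ZMod p))‖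
        = ∑ s ∈ range T, ∑ s' ∈ range T, f ((s' : ℤ) - (s : ℤ)) := by
          refine sum_congr rfl fun s _ => sum_congr rfl fun s' _ => ?_
          simp only [hfdef]
          push_cast
          rfl
      _ ≤ ∑ s ∈ range T, ∑ r ∈ Ioo (-(T : ℤ)) (T : ℤ), f r := sum_le_sum fun s hs => GNB_row T f hf s hs
      _ = T * ∑ r ∈ Ioo (-(T : ℤ)) (T : ℤ), f r := by rw [sum_const, card_range, nsmul_eq_mul]
  have hcard : ((Ioo (-(T : ℤ)) (T : ℤ)).card : ℝ) ≤ 2 * T := by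
    rw [Int.card_Ioo]
    have h1 : ((T : ℤ) - -(T : ℤ) - 1).toNat ≤ 2 * T := by omega
    exact_mod_cast h1
  have hCS : (∑ r ∈ Ioo (-(T : ℤ)) (T : ℤ), f r) ^ 2 ≤ (57 * T * √R) ^ 2 := by
    have h1 : (∑ r ∈ Ioo (-(T : ℤ)) (T : ℤ), f r) ^ 2 ≤ ((Ioo (-(T : ℤ)) (T : ℤ)).card : ℝ) * ∑ r ∈ Ioo (-(T : ℤ)) (T : ℤ), f r ^ 2 :=
      sq_sum_le_card_mul_sum_sq
    have h2 : ((Ioo (-(T : ℤ)) (T : ℤ)).card : ℝ) * ∑ r ∈ Ioo (-(T : ℤ)) (T : ℤ), f r ^ 2 ≤ (2 * T) * (1600 * T * R) :=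
      mul_le_mul hcard hL (sum_nonneg fun r _ => by positivity) (by positivity)
    refine (h1.trans h2).trans ?_
    rw [mul_pow, mul_pow, Real.sq_sqrt hR0]
    nlinarith [mul_nonneg (mul_nonneg hT0.le hT0.le) hR0]
  have hS2 : ∑ r ∈ Ioo (-(T : ℤ)) (T : ℤ), f r ≤ 57 * T * √R :=
    (pow_le_pow_iff_left₀ (sum_nonneg fun r _ => hf r) (by positivity) (by norm_num : (2 : ℕ) ≠ 0)).mp hCS
  have hS3 : ∑ s ∈ range T, ∑ s' ∈ range T, ‖WJ N (cells N B) ((s' : ZMod p) - (s : ZMod p))‖ ≤ 57 * (T : ℝ) ^ 2 * √R := by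
    refine hS1.trans ?_
    calc (T : ℝ) * ∑ r ∈ Ioo (-(T : ℤ)) (T : ℤ), f r ≤ T * (57 * T * √R) := mul_le_mul_of_nonneg_left hS2 hT0.le
      _ = 57 * (T : ℝ) ^ 2 * √R := by ring
  have hQ : 0 ≤ ∑ j ∈ cells N B, ((cell N B j).card : ℝ) ^ 2 := sum_nonneg fun j _ => by positivity
  have h4 : 4 * √p * (∑ s ∈ range T, ∑ s' ∈ range T, ‖WJ N (cells N B) ((s' : ZMod p) - (s : ZMod p))‖) ≤ 300 * √p * (T : ℝ) ^ 2 * √R := by
    calc 4 * √p * (∑ s ∈ range T, ∑ s' ∈ range T, ‖WJ N (cells N B) ((s' : ZMod p) - (s : ZMod p))‖)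
        ≤ 4 * √p * (57 * (T : ℝ) ^ 2 * √R) := mul_le_mul_of_nonneg_left hS3 (by positivity)
      _ = 228 * (√p * (T : ℝ) ^ 2 * √R) := by ring
      _ ≤ 300 * (√p * (T : ℝ) ^ 2 * √R) := mul_le_mul_of_nonneg_right (by norm_num) (by positivity)
      _ = 300 * √p * (T : ℝ) ^ 2 * √R := by ring
  have h5 := mul_le_mul_of_nonneg_right h4 hQ
  linarith

end Pool.Agent.OT
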