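import Pool.Agent.helper64.OT.SpecW

set_option autoImplicit false

/-!
# OT, row WRB: root bound for a family (helper30)
-/

namespace Pool.Agent.OT

open Finset Polynomial Pool.Agent.helper82.Weil Pool.Agent.helper82.KL

/-- the recursion determines the power sums -/
theorem WRB_det (L : ℂ[X]) (S T : ℕ → ℂ) (h0 : L.coeff 0 = 1)
    (hS : ∀ n : ℕ, (n : ℂ) * L.coeff n = ∑ r ∈ Icc 1 n, S r * L.coeff (n - r))
    (hT : ∀ n : ℕ, (n : ℂ) * L.coeff n = ∑ r ∈ Icc 1 n, T r * L.coeff (n - r)) :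
    ∀ r : ℕ, 1 ≤ r → S r = T r := by
  intro r
  induction r using Nat.strong_induction_on with
  | _ r ih =>
    intro hr
    obtain ⟨m, rfl⟩ : ∃ m, r = m + 1 := ⟨r - 1, by omega⟩
    have h1 := hS (m + 1)
    have h2 := hT (m + 1)
    rw [sum_Icc_succ_top (by omega), Nat.sub_self, h0, mul_one] at h1 h2
    have h3 : ∑ k ∈ Icc 1 m, S k * L.coeff (m + 1 - k) = ∑ k ∈ Icc 1 m, T k * L.coeff (m + 1 - k) := by
      refine sum_congr rfl fun k hk => ?_
      rw [mem_Icc] at hk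
      rw [ih k (by omega) hk.1]
    rw [h1, h3] at h2
    exact add_left_cancel h2

theorem WRB (hWNW : WNW_stmt) (hWFA : WFA_stmt) : WRB_stmt := by
  intro ι _ L S R C' s₀ hR hs₀ h0 hN hS i₀
  choose α hα0 hα using fun i => hWFA (L i) (h0 i)
  have hpow : ∀ i, ∀ r : ℕ, 1 ≤ r → S i r = -∑ j, α i j ^ r := by
    intro i
    refine WRB_det (L i) (S i) (fun r => -∑ j, α i j ^ r) (h0 i) (hN i) ?_
    intro n
    have h1 := hWNW (Fin (L i).natDegree) univ (α i) n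
    rw [← hα i] at h1
    exact h1
  -- the product of all the factors
  set J : Type := (i : ι) × Fin (L i).natDegree with hJ
  set β : J → ℂ := fun x => α x.1 x.2 ^ s₀ with hβ
  set P : ℂ[X] := ∏ x : J, (1 - C (β x) * X) with hP
  have hP0 : P.coeff 0 = 1 := by
    rw [hP, coeff_zero_eq_eval_zero, eval_prod]
    simp
  have hPN : ∀ n : ℕ, (n : ℂ) * P.coeff n = ∑ r ∈ Icc 1 n, (-∑ x : J, β x ^ r) * P.coeff (n - r) :=
    fun n => hWNW J univ β n
  have hPS : ∀ r : ℕ, 1 ≤ r → ‖-∑ x : J, β x ^ r‖ ≤ C' * (R ^ s₀) ^ r := by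
    intro r hr
    have h1 : -∑ x : J, β x ^ r = ∑ i, S i (s₀ * r) := by
      have h2 : ∑ x : J, β x ^ r = ∑ i, ∑ j : Fin (L i).natDegree, (α i j ^ s₀) ^ r :=
        Fintype.sum_sigma (fun x : J => β x ^ r)
      rw [h2, ← sum_neg_distrib]
      refine sum_congr rfl fun i _ => ?_
      rw [hpow i (s₀ * r) (Nat.mul_pos hs₀ hr)]
      congr 1
      refine sum_congr rfl fun j _ => ?_
      rw [pow_mul]
    rw [h1, ← pow_mul]
    exact hS r hr
  have hroot : ∀ i j, ‖α i j‖ ≤ R := by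
    intro i j
    have hb : α i j ^ s₀ ≠ 0 := pow_ne_zero _ (hα0 i j)
    have h1 : P.IsRoot ((α i j ^ s₀)⁻¹) := by
      rw [IsRoot, hP, eval_prod]
      refine prod_eq_zero (mem_univ (⟨i, j⟩ : J)) ?_
      have h2 : β (⟨i, j⟩ : J) = α i j ^ s₀ := rfl
      rw [h2]
      simp only [eval_sub, eval_one, eval_mul, eval_C, eval_X]
      rw [mul_inv_cancel₀ hb, sub_self]
    have h2 := root_bound P (fun r => -∑ x : J, β x ^ r) C' (R ^ s₀) (pow_pos hR _) hP0 hPS hPN _ h1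
    have h3 : (0 : ℝ) < ‖α i j ^ s₀‖ := norm_pos_iff.mpr hb
    rw [norm_inv, ← div_eq_mul_inv, le_div_iff₀ h3, one_mul, norm_pow] at h2
    exact (pow_le_pow_iff_left₀ (norm_nonneg _) hR.le hs₀.ne').mp h2
  have hc : (L i₀).coeff 1 = -∑ j, α i₀ j := by
    have h1 := hN i₀ 1
    have h2 : Icc 1 1 = ({1} : Finset ℕ) := rfl
    rw [h2, sum_singleton, Nat.sub_self, h0, mul_one, hpow i₀ 1 le_rfl] at h1
    simpa using h1
  rw [hc, norm_neg]
  calc ‖∑ j, α i₀ j‖ ≤ ∑ j, ‖α i₀ j‖ := norm_sum_le _ _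
    _ ≤ ∑ _j : Fin (L i₀).natDegree, R := sum_le_sum fun j _ => hroot i₀ j
    _ = (L i₀).natDegree * R := by rw [sum_const, card_univ, Fintype.card_fin, nsmul_eq_mul]

end Pool.Agent.OT
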